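import Mathlib

/-!
# Shears and infinite transitivity

`V` is a vector space over an infinite field with an alternating bilinear form `ω`.
For `v : V` and a function `g : K → K` the shear `Sh v g` maps `p` to `p + g (ω v p) • v`.
A group of permutations of `V` containing all shears with polynomial `g` is infinitely transitive.
-/

namespace Pool.Agent.SympTrans

open Polynomial

variable {K V : Type*} [Field K] [AddCommGroup V] [Module K V]

/-- The shear `p ↦ p + g (ω v p) • v`. -/
def Sh (ω : V →ₗ[K] V →ₗ[K] K) (hω : ∀ v, ω v v = 0) (v : V) (g : K → K) : Equiv.Perm V where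
  toFun p := p + g (ω v p) • v
  invFun p := p - g (ω v p) • v
  left_inv p := by simp [hω]
  right_inv p := by simp [hω]

@[simp] lemma Sh_apply (ω : V →ₗ[K] V →ₗ[K] K) (hω : ∀ v, ω v v = 0) (v : V) (g : K → K)
    (p : V) : Sh ω hω v g p = p + g (ω v p) • v := rfl

lemma Sh_mul (ω : V →ₗ[K] V →ₗ[K] K) (hω : ∀ v, ω v v = 0) (v : V) (g h : K → K) :
    Sh ω hω v g * Sh ω hω v h = Sh ω hω v (g + h) := by
  ext p
  simp only [Equiv.Perm.mul_apply, Sh_apply, map_add, map_smul, hω, smul_eq_mul, mul_zero,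
    add_zero, Pi.add_apply, add_smul]
  abel

/-- interpolation by a polynomial: value one at `s`, value zero on a finite set not containing `s` -/
lemma exists_interp (s : K) (T : Finset K) (hs : s ∉ T) :
    ∃ g : K[X], g.eval s = 1 ∧ ∀ t ∈ T, g.eval t = 0 := by
  refine ⟨C ((∏ t ∈ T, (s - t))⁻¹) * ∏ t ∈ T, (X - C t), ?_, ?_⟩
  · simp only [eval_mul, eval_C, eval_prod, eval_sub, eval_X]
    apply inv_mul_cancel₀
    rw [Finset.prod_ne_zero_iff]
    intro t ht h
    apply hs
    rw [sub_eq_zero] at h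
    rwa [h]
  · intro t ht
    simp only [eval_mul, eval_C, eval_prod, eval_sub, eval_X]
    rw [Finset.prod_eq_zero ht (sub_self t), mul_zero]

/-- A generic vector pairs nontrivially with finitely many given nonzero vectors. -/
lemma exists_generic [Infinite K] (ω : V →ₗ[K] V →ₗ[K] K)
    (hnd : ∀ w : V, w ≠ 0 → ∃ v, ω v w ≠ 0) (W : Finset V) (hW : ∀ w ∈ W, w ≠ 0) :
    ∃ a : V, ∀ w ∈ W, ω a w ≠ 0 := by
  classical
  by_contra hcon
  push Not at hcon
  have := Subspace.biUnion_ne_univ_of_top_notMem (k := K) (E := V)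
    (s := (W.image fun w => LinearMap.ker (ω.flip w) : Finset (Submodule K V)) ) (by
      intro h
      simp only [Finset.mem_image] at h
      obtain ⟨w, hw, h⟩ := h
      obtain ⟨v, hv⟩ := hnd w (hW w hw)
      apply hv
      have : v ∈ LinearMap.ker (ω.flip w) := by rw [h]; trivial
      simpa using this)
  apply this
  ext a
  simp only [Set.mem_iUnion, Set.mem_univ, iff_true]
  obtain ⟨w, hw, h⟩ := hcon a
  exact ⟨LinearMap.ker (ω.flip w), Finset.mem_image_of_mem _ hw, by simpa using h⟩

/-- One point can be moved to any other one while fixing finitely many points. -/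
lemma move_one [Infinite K] (ω : V →ₗ[K] V →ₗ[K] K) (hω : ∀ v, ω v v = 0)
    (hnd : ∀ w : V, w ≠ 0 → ∃ v, ω v w ≠ 0) (H : Subgroup (Equiv.Perm V))
    (hH : ∀ (v : V) (g : K[X]), Sh ω hω v (fun t => g.eval t) ∈ H)
    (F : Finset V) (p q : V) (hp : p ∉ F) (hq : q ∉ F) :
    ∃ h ∈ H, h p = q ∧ ∀ f ∈ F, h f = f := by
  classical
  obtain ⟨a, ha⟩ := exists_generic ω hnd
    ((F.image fun f => p - f) ∪ (F.image fun f => q - f)) (by
      intro w hw
      simp only [Finset.mem_union, Finset.mem_image] at hw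
      rcases hw with ⟨f, hf, rfl⟩ | ⟨f, hf, rfl⟩
      · intro h; rw [sub_eq_zero] at h; exact hp (h ▸ hf)
      · intro h; rw [sub_eq_zero] at h; exact hq (h ▸ hf))
  have ha1 : ∀ f ∈ F, ω a (p - f) ≠ 0 := fun f hf => ha _ (by
    rw [Finset.mem_union]; left; exact Finset.mem_image_of_mem (fun f => p - f) hf)
  have ha2 : ∀ f ∈ F, ω a (q - f) ≠ 0 := fun f hf => ha _ (by
    rw [Finset.mem_union]; right; exact Finset.mem_image_of_mem (fun f => q - f) hf)
  obtain ⟨t, ht⟩ := Infinite.exists_notMem_finset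
    (insert 0 (F.image fun f => ω (q - p) (q - f) / ω a (q - f)))
  have ht0 : t ≠ 0 := fun h => ht (by rw [h]; exact Finset.mem_insert_self _ _)
  have ht1 : ∀ f ∈ F, ω (q - p) (q - f) - t * ω a (q - f) ≠ 0 := by
    intro f hf h
    apply ht
    apply Finset.mem_insert_of_mem
    rw [Finset.mem_image]
    refine ⟨f, hf, ?_⟩
    rw [div_eq_iff (ha2 f hf)]
    rwa [sub_eq_zero] at h
  -- first move
  obtain ⟨g1, hg1, hg1'⟩ := exists_interp (ω (t • a) p) (F.image fun f => ω (t • a) f) (by
    intro h
    rw [Finset.mem_image] at h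
    obtain ⟨f, hf, h⟩ := h
    apply ha1 f hf
    have : t * ω a (p - f) = 0 := by
      have h' : t * ω a f = t * ω a p := by simpa using h
      rw [map_sub, mul_sub, h', sub_self]
    exact (mul_eq_zero.mp this).resolve_left ht0)
  -- second move
  obtain ⟨g2, hg2, hg2'⟩ := exists_interp (ω (q - p - t • a) (p + t • a))
      (F.image fun f => ω (q - p - t • a) f) (by
    intro h
    rw [Finset.mem_image] at h
    obtain ⟨f, hf, h⟩ := h
    apply ht1 f hf
    have h1 : ω (q - p - t • a) ((q - f) - (q - p - t • a)) = 0 := by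
      have : (q - f) - (q - p - t • a) = (p + t • a) - f := by abel
      rw [this, map_sub, h, sub_self]
    rw [map_sub, hω, sub_zero] at h1
    simpa using h1)
  refine ⟨Sh ω hω (q - p - t • a) (fun s => g2.eval s) * Sh ω hω (t • a) (fun s => g1.eval s),
    H.mul_mem (hH _ _) (hH _ _), ?_, ?_⟩
  · have e1 : Sh ω hω (t • a) (fun s => g1.eval s) p = p + t • a := by
      rw [Sh_apply, hg1, one_smul]
    rw [Equiv.Perm.mul_apply, e1, Sh_apply, hg2, one_smul]
    abel
  · intro f hf
    have e1 : Sh ω hω (t • a) (fun s => g1.eval s) f = f := by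
      rw [Sh_apply, hg1' _ (Finset.mem_image_of_mem _ hf), zero_smul, add_zero]
    rw [Equiv.Perm.mul_apply, e1, Sh_apply, hg2' _ (Finset.mem_image_of_mem _ hf), zero_smul,
      add_zero]

/-- A group containing all polynomial shears is infinitely transitive. -/
theorem infinitely_transitive_of_shears [Infinite K] (ω : V →ₗ[K] V →ₗ[K] K)
    (hω : ∀ v, ω v v = 0) (hnd : ∀ w : V, w ≠ 0 → ∃ v, ω v w ≠ 0) (H : Subgroup (Equiv.Perm V))
    (hH : ∀ (v : V) (g : K[X]), Sh ω hω v (fun t => g.eval t) ∈ H)
    (m : ℕ) (x y : Fin m → V) (hx : Function.Injective x) (hy : Function.Injective y) :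
    ∃ h ∈ H, ∀ i, h (x i) = y i := by
  classical
  have key : ∀ k : ℕ, k ≤ m → ∃ h ∈ H, ∀ i : Fin m, (i : ℕ) < k → h (x i) = y i := by
    intro k
    induction k with
    | zero => intro _; exact ⟨1, H.one_mem, fun i hi => absurd hi (Nat.not_lt_zero _)⟩
    | succ k ih =>
      intro hk
      obtain ⟨h, hh, hxy⟩ := ih (by omega)
      let j : Fin m := ⟨k, by omega⟩
      let F : Finset V := (Finset.univ.filter fun i : Fin m => (i : ℕ) < k).image y
      have hF : ∀ f ∈ F, ∃ i : Fin m, (i : ℕ) < k ∧ y i = f := by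
        intro f hf
        simpa [F] using hf
      obtain ⟨h', hh', hpq, hfix⟩ := move_one ω hω hnd H hH F (h (x j)) (y j) (by
        intro hmem
        obtain ⟨i, hi, hyi⟩ := hF _ hmem
        rw [← hxy i hi] at hyi
        have := hx (h.injective hyi)
        rw [this] at hi
        simp [j] at hi) (by
        intro hmem
        obtain ⟨i, hi, hyi⟩ := hF _ hmem
        have := hy hyi
        rw [this] at hi
        simp [j] at hi)
      refine ⟨h' * h, H.mul_mem hh' hh, ?_⟩
      intro i hi
      rw [Equiv.Perm.mul_apply]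
      rcases Nat.lt_succ_iff_lt_or_eq.mp hi with hi | hi
      · rw [hxy i hi]
        apply hfix
        simp only [F, Finset.mem_image, Finset.mem_filter, Finset.mem_univ, true_and]
        exact ⟨i, hi, rfl⟩
      · have : i = j := Fin.ext hi
        rw [this, hpq]
  obtain ⟨h, hh, hxy⟩ := key m le_rfl
  exact ⟨h, hh, fun i => hxy i i.2⟩

end Pool.Agent.SympTrans
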