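import Mathlib
import Pool.Agent.SympTrans.Transitive

/-!
# From low degree shears to all shears

A group of permutations of a symplectic space of dimension at least four which contains the shears
`p ↦ p + c (ω v p)^j v` for `j ≤ 2` contains them for all `j`.
-/

namespace Pool.Agent.SympTrans

open Polynomial

variable {K V : Type*} [Field K] [AddCommGroup V] [Module K V]

/-- Coefficient extraction in a submodule. -/
lemma coeff_mem {W : Type*} [AddCommGroup W] [Module K W] (M : Submodule K W) (N : ℕ)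
    (m : ℕ → W) (S : Set K) (hS : S.Infinite)
    (h : ∀ s ∈ S, ∑ k ∈ Finset.range N, s ^ k • m k ∈ M) : ∀ k < N, m k ∈ M := by
  intro k hk
  rw [← Submodule.Quotient.mk_eq_zero, ← Module.forall_dual_apply_eq_zero_iff K]
  intro φ
  set P : K[X] := ∑ i ∈ Finset.range N, C (φ (Submodule.Quotient.mk (m i))) * X ^ i with hP
  have hP0 : P = 0 := by
    apply Polynomial.eq_zero_of_infinite_isRoot
    apply hS.mono
    intro s hs
    have h1 : φ (Submodule.Quotient.mk (∑ k ∈ Finset.range N, s ^ k • m k)) = 0 := by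
      rw [(Submodule.Quotient.mk_eq_zero M).mpr (h s hs), map_zero]
    have h2 : Submodule.Quotient.mk (p := M) (∑ k ∈ Finset.range N, s ^ k • m k)
        = ∑ k ∈ Finset.range N, s ^ k • Submodule.Quotient.mk (p := M) (m k) := by
      rw [← Submodule.mkQ_apply, map_sum]
      simp
    rw [h2, map_sum] at h1
    simp only [map_smul, smul_eq_mul] at h1
    simp only [hP, Set.mem_ofPred_eq, IsRoot.def, eval_finsetSum, eval_mul, eval_C, eval_pow,
      eval_X]
    rw [← h1]
    exact Finset.sum_congr rfl fun i _ => mul_comm _ _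
  have : P.coeff k = φ (Submodule.Quotient.mk (m k)) := by
    simp only [hP, finsetSum_coeff, coeff_C_mul, coeff_X_pow]
    rw [Finset.sum_eq_single k]
    · simp
    · intro b _ hb; simp [hb.symm]
    · intro h; exact absurd (Finset.mem_range.mpr hk) h
  rw [← this, hP0, coeff_zero]

variable (ω : V →ₗ[K] V →ₗ[K] K) (hω : ∀ v, ω v v = 0)

lemma skew (ω : V →ₗ[K] V →ₗ[K] K) (hω : ∀ v, ω v v = 0) (u v : V) : ω u v = - ω v u := by
  have := hω (u + v)
  simp only [map_add, LinearMap.add_apply, hω, zero_add, add_zero] at this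
  rw [eq_neg_iff_add_eq_zero, add_comm]
  exact this

/-- The map `p ↦ p + (φ (ω u p, ω v p)).1 • u + (φ (ω u p, ω v p)).2 • v` for `ω u v = 0`. -/
def E (u v : V) (huv : ω u v = 0) (φ : K × K → K × K) : Equiv.Perm V where
  toFun p := p + ((φ (ω u p, ω v p)).1 • u + (φ (ω u p, ω v p)).2 • v)
  invFun p := p - ((φ (ω u p, ω v p)).1 • u + (φ (ω u p, ω v p)).2 • v)
  left_inv p := by
    have hvu : ω v u = 0 := by rw [skew ω hω, huv, neg_zero]
    simp [hω, huv, hvu]
  right_inv p := by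
    have hvu : ω v u = 0 := by rw [skew ω hω, huv, neg_zero]
    simp [hω, huv, hvu]

lemma E_apply (u v : V) (huv : ω u v = 0) (φ : K × K → K × K) (p : V) :
    E ω hω u v huv φ p = p + ((φ (ω u p, ω v p)).1 • u + (φ (ω u p, ω v p)).2 • v) := rfl

lemma E_mul (u v : V) (huv : ω u v = 0) (φ ψ : K × K → K × K) :
    E ω hω u v huv φ * E ω hω u v huv ψ = E ω hω u v huv (φ + ψ) := by
  have hvu : ω v u = 0 := by rw [skew ω hω, huv, neg_zero]
  ext p
  simp only [Equiv.Perm.mul_apply, E_apply, map_add, map_smul, hω, huv, hvu, smul_eq_mul, mul_zero,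
    add_zero, Pi.add_apply, add_smul, Prod.fst_add, Prod.snd_add]
  abel

lemma E_zero (u v : V) (huv : ω u v = 0) : E ω hω u v huv 0 = 1 := by
  ext p
  simp [E_apply]

/-- The functions `φ` all of whose multiples give elements of `H`. -/
def ESub (u v : V) (huv : ω u v = 0) (H : Subgroup (Equiv.Perm V)) :
    Submodule K (K × K → K × K) where
  carrier := {φ | ∀ t : K, E ω hω u v huv (t • φ) ∈ H}
  add_mem' := by
    intro φ ψ hφ hψ t
    rw [smul_add, ← E_mul]
    exact H.mul_mem (hφ t) (hψ t)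
  zero_mem' := by
    intro t
    rw [smul_zero, E_zero]
    exact H.one_mem
  smul_mem' := by
    intro c φ hφ t
    rw [smul_smul]
    exact hφ _

/-- The monomial shear. -/
abbrev S (v : V) (c : K) (j : ℕ) : Equiv.Perm V := Sh ω hω v (fun t => c * t ^ j)

/-- polarisation -/
lemma polar (u v : V) (huv : ω u v = 0) (H : Subgroup (Equiv.Perm V)) (j : ℕ) [Infinite K]
    (hH : ∀ (w : V) (c : K), S ω hω w c j ∈ H) :
    (fun z : K × K => ((j : K) * z.1 ^ (j - 1) * z.2, z.1 ^ j)) ∈ ESub ω hω u v huv H := by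
  classical
  let m : ℕ → (K × K → K × K) := fun i z =>
    ((Nat.choose j i : K) * z.1 ^ (j - i) * z.2 ^ i,
      if i = 0 then 0 else (Nat.choose j (i - 1) : K) * z.1 ^ (j - (i - 1)) * z.2 ^ (i - 1))
  have hm : ∀ s : K, ∑ k ∈ Finset.range (j + 2), s ^ k • m k
      = fun z : K × K => ((z.1 + s * z.2) ^ j, (z.1 + s * z.2) ^ j * s) := by
    intro s
    funext z
    rw [Finset.sum_apply]
    have hb : (z.1 + s * z.2) ^ j
        = ∑ i ∈ Finset.range (j + 1), s ^ i * ((Nat.choose j i : K) * z.1 ^ (j - i) * z.2 ^ i) := by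
      rw [add_comm, add_pow]
      apply Finset.sum_congr rfl
      intro i _
      rw [mul_pow]
      ring
    refine Prod.ext ?_ ?_
    · rw [Prod.fst_sum]
      simp only [Pi.smul_apply, Prod.smul_fst, smul_eq_mul, m]
      rw [Finset.sum_range_succ, Nat.choose_succ_self, hb]
      simp
    · rw [Prod.snd_sum]
      simp only [Pi.smul_apply, Prod.smul_snd, smul_eq_mul, m]
      rw [Finset.sum_range_succ', hb, Finset.sum_mul]
      simp only [Nat.add_sub_cancel, if_true, mul_zero, add_zero, Nat.add_eq_zero_iff,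
        one_ne_zero, and_false, if_false]
      apply Finset.sum_congr rfl
      intro i _
      ring
  have key := coeff_mem (ESub ω hω u v huv H) (j + 2) m Set.univ Set.infinite_univ (by
    intro s _
    rw [hm s]
    intro t
    have : E ω hω u v huv (t • fun z : K × K => ((z.1 + s * z.2) ^ j, (z.1 + s * z.2) ^ j * s))
        = S ω hω (u + s • v) t j := by
      ext p
      simp only [E_apply, Sh_apply, Pi.smul_apply, Prod.smul_fst, Prod.smul_snd, smul_eq_mul,
        map_add, map_smul, LinearMap.add_apply, LinearMap.smul_apply, smul_add, smul_smul]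
      congr 2
      rw [mul_assoc]
    rw [this]
    exact hH _ _) 1 (by omega)
  have e : m 1 = (fun z : K × K => ((j : K) * z.1 ^ (j - 1) * z.2, z.1 ^ j)) := by
    funext z
    simp [m]
  rwa [e] at key

/-- The commutator of two flows of Heisenberg type. -/
lemma comm_identity (u v w : V) (huv : ω u v = 0) (huw : ω u w = 0) (hvw : ω v w = 1)
    (j k : ℕ) (hj : 1 ≤ j) (hk : 1 ≤ k) (c : K) :
    E ω hω u v huv (c • fun z : K × K => ((j : K) * z.1 ^ (j - 1) * z.2, z.1 ^ j)) *
      E ω hω u w huw (fun z : K × K => ((k : K) * z.1 ^ (k - 1) * z.2, z.1 ^ k))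
    = S ω hω u (c * (j + k)) (j + k - 1) *
      (E ω hω u w huw (fun z : K × K => ((k : K) * z.1 ^ (k - 1) * z.2, z.1 ^ k)) *
        E ω hω u v huv (c • fun z : K × K => ((j : K) * z.1 ^ (j - 1) * z.2, z.1 ^ j))) := by
  have hvu : ω v u = 0 := by rw [skew ω hω, huv, neg_zero]
  have hwu : ω w u = 0 := by rw [skew ω hω, huw, neg_zero]
  have hwv : ω w v = -1 := by rw [skew ω hω, hvw]
  ext p
  obtain ⟨j, rfl⟩ : ∃ i, j = i + 1 := ⟨j - 1, by omega⟩
  obtain ⟨k, rfl⟩ : ∃ i, k = i + 1 := ⟨k - 1, by omega⟩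
  have e1 : j + 1 + (k + 1) - 1 = j + k + 1 := by omega
  simp only [Equiv.Perm.mul_apply, E_apply, Sh_apply, map_add, map_smul, hω, huv, hvu, huw, hwu,
    hvw, hwv, smul_eq_mul, mul_zero, add_zero, Pi.smul_apply, Prod.smul_fst, Prod.smul_snd,
    Nat.add_sub_cancel, e1]
  match_scalars <;> ring

/-- `g` is a linear symplectic permutation -/
def LinSymp (g : Equiv.Perm V) : Prop :=
  (∃ L : V →ₗ[K] V, ∀ p, g p = L p) ∧ ∀ p q, ω (g p) (g q) = ω p q

lemma conj_S (g : Equiv.Perm V) (hg : LinSymp ω g) (v : V) (c : K) (j : ℕ) :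
    g * S ω hω v c j * g⁻¹ = S ω hω (g v) c j := by
  obtain ⟨⟨L, hL⟩, hs⟩ := hg
  ext p
  obtain ⟨q, rfl⟩ := g.surjective p
  have e : g⁻¹ (g q) = q := g.symm_apply_apply q
  simp only [Equiv.Perm.mul_apply, e, Sh_apply]
  rw [hs v q, hL, hL, hL, map_add, map_smul]

lemma S_zero_vec (c : K) (j : ℕ) : S ω hω (0 : V) c j = 1 := by
  ext p
  simp

/-- From low degree shears to all monomial shears. -/
theorem all_S [CharZero K] (H : Subgroup (Equiv.Perm V)) (u₀ v w : V)
    (huv : ω u₀ v = 0) (huw : ω u₀ w = 0) (hvw : ω v w = 1)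
    (htr : ∀ u : V, u ≠ 0 → ∃ g ∈ H, LinSymp ω g ∧ g u₀ = u)
    (h0 : ∀ c, S ω hω u₀ c 0 ∈ H) (h1 : ∀ c, S ω hω u₀ c 1 ∈ H) (h2 : ∀ c, S ω hω u₀ c 2 ∈ H)
    (j : ℕ) (u : V) (c : K) : S ω hω u c j ∈ H := by
  -- transport
  have tr : ∀ j : ℕ, (∀ c, S ω hω u₀ c j ∈ H) → ∀ (u : V) (c : K), S ω hω u c j ∈ H := by
    intro j hj u c
    by_cases hu : u = 0
    · rw [hu, S_zero_vec]; exact H.one_mem
    · obtain ⟨g, hg, hgs, rfl⟩ := htr u hu
      rw [← conj_S ω hω g hgs]
      exact H.mul_mem (H.mul_mem hg (hj c)) (H.inv_mem hg)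
  have step : ∀ m : ℕ, 2 ≤ m → (∀ c, S ω hω u₀ c m ∈ H) → ∀ c, S ω hω u₀ c (m + 1) ∈ H := by
    intro m hm hmH c
    have pv := polar ω hω u₀ v huv H m (tr m hmH)
    have pw := polar ω hω u₀ w huw H 2 (tr 2 h2)
    have hne : ((m : K) + ((2 : ℕ) : K)) ≠ 0 := by
      have : ((m + 2 : ℕ) : K) ≠ 0 := Nat.cast_ne_zero.mpr (by omega)
      simpa using this
    have hE1 := pv (c / ((m : K) + ((2 : ℕ) : K)))
    have hE2 := pw 1
    rw [one_smul] at hE2
    have hc := comm_identity ω hω u₀ v w huv huw hvw m 2 (by omega) (by omega)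
      (c / ((m : K) + ((2 : ℕ) : K)))
    rw [div_mul_cancel₀ _ hne] at hc
    have e1 : m + 2 - 1 = m + 1 := by omega
    rw [e1] at hc
    have hmem := H.mul_mem hE1 hE2
    rw [hc] at hmem
    have := H.mul_mem hmem (H.inv_mem (H.mul_mem hE2 hE1))
    rwa [mul_inv_cancel_right] at this
  have all : ∀ m : ℕ, ∀ c, S ω hω u₀ c m ∈ H := by
    intro m
    match m with
    | 0 => exact h0
    | 1 => exact h1
    | (m + 2) =>
      induction m with
      | zero => exact h2
      | succ m ih => exact step (m + 2) (by omega) ih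
  exact tr j (all j) u c

/-- From monomial shears to polynomial shears. -/
lemma poly_Sh (H : Subgroup (Equiv.Perm V)) (v : V) (h : ∀ (j : ℕ) (c : K), S ω hω v c j ∈ H)
    (g : K[X]) : Sh ω hω v (fun t => g.eval t) ∈ H := by
  induction g using Polynomial.induction_on' with
  | add p q hp hq =>
    have : (fun t => (p + q).eval t) = (fun t => p.eval t) + fun t => q.eval t := by
      funext t; simp
    rw [this, ← Sh_mul]
    exact H.mul_mem hp hq
  | monomial n a =>
    have : (fun t => (monomial n a).eval t) = fun t => a * t ^ n := by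
      funext t; simp
    rw [this]
    exact h n a

/-- The abstract infinite transitivity criterion used below. -/
theorem transitivity_criterion [CharZero K] (hnd : ∀ w : V, w ≠ 0 → ∃ v, ω v w ≠ 0)
    (H : Subgroup (Equiv.Perm V)) (u₀ v w : V)
    (huv : ω u₀ v = 0) (huw : ω u₀ w = 0) (hvw : ω v w = 1)
    (htr : ∀ u : V, u ≠ 0 → ∃ g ∈ H, LinSymp ω g ∧ g u₀ = u)
    (h0 : ∀ c, S ω hω u₀ c 0 ∈ H) (h1 : ∀ c, S ω hω u₀ c 1 ∈ H) (h2 : ∀ c, S ω hω u₀ c 2 ∈ H)
    (m : ℕ) (x y : Fin m → V) (hx : Function.Injective x) (hy : Function.Injective y) :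
    ∃ h ∈ H, ∀ i, h (x i) = y i :=
  infinitely_transitive_of_shears ω hω hnd H
    (fun v' g => poly_Sh ω hω H v' (fun j c =>
      all_S ω hω H u₀ v w huv huw hvw htr h0 h1 h2 j v' c) g) m x y hx hy

end Pool.Agent.SympTrans
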