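import Mathlib
import Pool.Agent.SympTrans.Heisenberg

/-!
# Three one-parameter groups on `K^n × K^n`

The group generated by `(x,y) ↦ (x + t y, y)`, `(x,y) ↦ (x, y + t x)` and
`(x,y) ↦ (x, y + t ∇F(x))`, where
`F(x) = ∑ x_i + ∑ i x_i^2 / 2 + x_0^3 / 3 + (∑ x_i^2)^2 / 4`,
is infinitely transitive for `n ≥ 2` (characteristic zero).
-/

namespace Pool.Agent.SympTrans

open Polynomial

variable {K : Type*} [Field K] {n : ℕ}

/-- The standard symplectic form on `K^n × K^n`. -/
def ω₀ : ((Fin n → K) × (Fin n → K)) →ₗ[K] ((Fin n → K) × (Fin n → K)) →ₗ[K] K :=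
  LinearMap.mk₂ K (fun p q => p.1 ⬝ᵥ q.2 - p.2 ⬝ᵥ q.1)
    (by intro a b c; simp only [Prod.fst_add, Prod.snd_add, add_dotProduct]; ring)
    (by intro c a b; simp only [Prod.smul_fst, Prod.smul_snd, smul_dotProduct, smul_eq_mul]; ring)
    (by intro a b c; simp only [Prod.fst_add, Prod.snd_add, dotProduct_add]; ring)
    (by intro c a b; simp only [Prod.smul_fst, Prod.smul_snd, dotProduct_smul, smul_eq_mul]; ring)

@[simp] lemma ω₀_apply (p q : (Fin n → K) × (Fin n → K)) :
    ω₀ p q = p.1 ⬝ᵥ q.2 - p.2 ⬝ᵥ q.1 := rfl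

lemma ω₀_self (v : (Fin n → K) × (Fin n → K)) : ω₀ v v = 0 := by
  rw [ω₀_apply, dotProduct_comm, sub_self]

lemma ω₀_nd (w : (Fin n → K) × (Fin n → K)) (hw : w ≠ 0) : ∃ v, ω₀ v w ≠ 0 := by
  by_contra hcon
  push Not at hcon
  apply hw
  refine Prod.ext ?_ ?_
  · funext i
    have := hcon (0, Pi.single i 1)
    simpa using this
  · funext i
    have := hcon (Pi.single i 1, 0)
    simpa using this

/-- `(x,y) ↦ (x, y + φ x)` -/
def A (φ : (Fin n → K) → (Fin n → K)) : Equiv.Perm ((Fin n → K) × (Fin n → K)) where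
  toFun p := (p.1, p.2 + φ p.1)
  invFun p := (p.1, p.2 - φ p.1)
  left_inv p := by simp
  right_inv p := by simp

/-- `(x,y) ↦ (x + φ y, y)` -/
def B (φ : (Fin n → K) → (Fin n → K)) : Equiv.Perm ((Fin n → K) × (Fin n → K)) where
  toFun p := (p.1 + φ p.2, p.2)
  invFun p := (p.1 - φ p.2, p.2)
  left_inv p := by simp
  right_inv p := by simp

@[simp] lemma A_apply (φ : (Fin n → K) → (Fin n → K)) (p) : A φ p = (p.1, p.2 + φ p.1) := rfl
@[simp] lemma B_apply (φ : (Fin n → K) → (Fin n → K)) (p) : B φ p = (p.1 + φ p.2, p.2) := rfl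

lemma A_mul (φ ψ : (Fin n → K) → (Fin n → K)) : A φ * A ψ = A (φ + ψ) := by
  apply Equiv.ext
  intro p
  simp only [Equiv.Perm.mul_apply, A_apply, Pi.add_apply]
  refine Prod.ext rfl ?_
  simp only
  abel

lemma B_mul (φ ψ : (Fin n → K) → (Fin n → K)) : B φ * B ψ = B (φ + ψ) := by
  apply Equiv.ext
  intro p
  simp only [Equiv.Perm.mul_apply, B_apply, Pi.add_apply]
  refine Prod.ext ?_ rfl
  simp only
  abel

lemma A_zero : A (0 : (Fin n → K) → (Fin n → K)) = 1 := by
  apply Equiv.ext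
  intro p
  simp

lemma A_neg (φ : (Fin n → K) → (Fin n → K)) : A (-φ) = (A φ)⁻¹ := by
  rw [eq_inv_iff_mul_eq_one, A_mul, neg_add_cancel, A_zero]

/-- degree zero part -/
def φ0 : (Fin n → K) → (Fin n → K) := fun _ _ => 1
/-- degree one part -/
def φ1 : (Fin n → K) → (Fin n → K) := fun x i => ((i : ℕ) : K) * x i
/-- degree two part -/
def φ2 : (Fin n → K) → (Fin n → K) := fun x i => if (i : ℕ) = 0 then x i ^ 2 else 0
/-- degree three part -/
def φ3 : (Fin n → K) → (Fin n → K) := fun x i => (x ⬝ᵥ x) * x i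

/-- The gradient of `F`. -/
def Φ : (Fin n → K) → (Fin n → K) := φ0 + φ1 + φ2 + φ3

section group

variable (H : Subgroup (Equiv.Perm ((Fin n → K) × (Fin n → K))))

/-- The functions `φ` all of whose multiples `A (t φ)` lie in `H`. -/
def ASub : Submodule K ((Fin n → K) → (Fin n → K)) where
  carrier := {φ | ∀ t : K, A (t • φ) ∈ H}
  add_mem' := by
    intro φ ψ hφ hψ t
    rw [smul_add, ← A_mul]
    exact H.mul_mem (hφ t) (hψ t)
  zero_mem' := by
    intro t
    rw [smul_zero, A_zero]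
    exact H.one_mem
  smul_mem' := by
    intro c φ hφ t
    rw [smul_smul]
    exact hφ _

lemma A_mem_of_ASub {φ : (Fin n → K) → (Fin n → K)} (h : φ ∈ ASub H) : A φ ∈ H := by
  have := h 1
  rwa [one_smul] at this

/-- the swap `(x,y) ↦ (-y, x)` -/
def J : Equiv.Perm ((Fin n → K) × (Fin n → K)) where
  toFun p := (-p.2, p.1)
  invFun p := (p.2, -p.1)
  left_inv p := by simp
  right_inv p := by simp

/-- the torus element `(x,y) ↦ (l x, l⁻¹ y)` -/
def D (l : K) (hl : l ≠ 0) : Equiv.Perm ((Fin n → K) × (Fin n → K)) where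
  toFun p := (l • p.1, l⁻¹ • p.2)
  invFun p := (l⁻¹ • p.1, l • p.2)
  left_inv p := by simp [smul_smul, hl]
  right_inv p := by simp [smul_smul, hl]

variable (hA : ∀ t : K, A (t • (id : (Fin n → K) → (Fin n → K))) ∈ H)
  (hB : ∀ t : K, B (t • (id : (Fin n → K) → (Fin n → K))) ∈ H)

include hA hB

lemma wl_mem (l : K) (hl : l ≠ 0) :
    (J * D (n := n) l hl : Equiv.Perm ((Fin n → K) × (Fin n → K))) ∈ H := by
  have : (J * D (n := n) l hl : Equiv.Perm ((Fin n → K) × (Fin n → K)))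
      = B ((-l⁻¹) • id) * A (l • id) * B ((-l⁻¹) • id) := by
    apply Equiv.ext
    intro p
    refine Prod.ext ?_ ?_
    · funext i
      simp only [J, D, Equiv.Perm.mul_apply, Equiv.coe_fn_mk, A_apply, B_apply, Pi.smul_apply, id,
        Pi.add_apply, Pi.neg_apply, smul_eq_mul]
      field_simp
      ring
    · funext i
      simp only [J, D, Equiv.Perm.mul_apply, Equiv.coe_fn_mk, A_apply, B_apply, Pi.smul_apply, id,
        Pi.add_apply, smul_eq_mul]
      field_simp
      ring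
  rw [this]
  exact H.mul_mem (H.mul_mem (hB _) (hA _)) (hB _)

lemma J_mem : (J : Equiv.Perm ((Fin n → K) × (Fin n → K))) ∈ H := by
  have h := wl_mem H hA hB 1 one_ne_zero
  have e : D (n := n) (1 : K) one_ne_zero = 1 := by
    apply Equiv.ext
    intro p
    simp [D]
  rwa [e, mul_one] at h

lemma D_mem (l : K) (hl : l ≠ 0) : D (n := n) l hl ∈ H := by
  have h := wl_mem H hA hB l hl
  have hJ := J_mem H hA hB
  have := H.mul_mem (H.inv_mem hJ) h
  rwa [inv_mul_cancel_left] at this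

/-- scaling -/
lemma ASub_scale {φ : (Fin n → K) → (Fin n → K)} (h : φ ∈ ASub H) (l : K) (hl : l ≠ 0) :
    (fun x => φ (l • x)) ∈ ASub H := by
  intro t
  have e : A (t • fun x => φ (l • x)) = (D l hl)⁻¹ * A ((l⁻¹ * t) • φ) * D l hl := by
    rw [← mul_right_inj (D l hl), ← mul_assoc, ← mul_assoc, mul_inv_cancel, one_mul]
    apply Equiv.ext
    intro p
    refine Prod.ext rfl ?_
    funext i
    simp only [D, Equiv.Perm.mul_apply, Equiv.coe_fn_mk, A_apply, Pi.smul_apply, Pi.add_apply,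
      smul_eq_mul]
    ring
  rw [e]
  exact H.mul_mem (H.mul_mem (H.inv_mem (D_mem H hA hB l hl)) (h _)) (D_mem H hA hB l hl)

/-- exchanging the roles of `x` and `y` -/
lemma B_mem_of_A {φ : (Fin n → K) → (Fin n → K)} (h : A φ ∈ H) : B φ ∈ H := by
  have e : B φ = J * (A φ)⁻¹ * J⁻¹ := by
    rw [← A_neg, eq_mul_inv_iff_mul_eq]
    apply Equiv.ext
    intro p
    refine Prod.ext ?_ rfl
    funext i
    simp [J]
    ring
  rw [e]
  exact H.mul_mem (H.mul_mem (J_mem H hA hB) (H.inv_mem h)) (H.inv_mem (J_mem H hA hB))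

/-- translation -/
lemma ASub_translate {φ : (Fin n → K) → (Fin n → K)} (h : φ ∈ ASub H) (a : Fin n → K)
    (ha : (fun _ => a) ∈ ASub H) : (fun x => φ (x + a)) ∈ ASub H := by
  have hB' : B (fun _ => a) ∈ H := B_mem_of_A H hA hB (A_mem_of_ASub H ha)
  intro t
  have e : A (t • fun x => φ (x + a)) = (B fun _ => a)⁻¹ * A (t • φ) * B fun _ => a := by
    rw [← mul_right_inj (B fun _ => a), ← mul_assoc, ← mul_assoc, mul_inv_cancel, one_mul]
    apply Equiv.ext
    intro p
    rfl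
  rw [e]
  exact H.mul_mem (H.mul_mem (H.inv_mem hB') (h _)) hB'

variable [CharZero K] (hC : ∀ t : K, A (t • (Φ : (Fin n → K) → (Fin n → K))) ∈ H)

include hC

lemma parts_mem : (φ0 : (Fin n → K) → (Fin n → K)) ∈ ASub H ∧ φ1 ∈ ASub H ∧ φ2 ∈ ASub H ∧
    φ3 ∈ ASub H := by
  let m : ℕ → ((Fin n → K) → (Fin n → K)) := fun k =>
    if k = 0 then φ0 else if k = 1 then φ1 else if k = 2 then φ2 else φ3
  have key := coeff_mem (ASub H) 4 m {s | s ≠ 0} (by
      have : {s : K | s ≠ 0} = {0}ᶜ := rfl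
      rw [this]
      exact (Set.finite_singleton 0).infinite_compl) (by
    intro s hs
    have h := ASub_scale H hA hB (φ := Φ) hC s hs
    have e : (fun x => (Φ : (Fin n → K) → (Fin n → K)) (s • x))
        = ∑ k ∈ Finset.range 4, s ^ k • m k := by
      have e0 : m 0 = φ0 := rfl
      have e1 : m 1 = φ1 := rfl
      have e2 : m 2 = φ2 := rfl
      have e3 : m 3 = φ3 := rfl
      rw [Finset.sum_range_succ, Finset.sum_range_succ, Finset.sum_range_succ,
        Finset.sum_range_succ, Finset.sum_range_zero, e0, e1, e2, e3]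
      funext x i
      simp only [Φ, φ0, φ1, φ2, φ3, zero_add,
        Pi.add_apply, Pi.smul_apply, smul_eq_mul, dotProduct_smul, smul_dotProduct]
      split_ifs <;> ring
    rwa [e] at h)
  exact ⟨key 0 (by norm_num), key 1 (by norm_num), key 2 (by norm_num), key 3 (by norm_num)⟩

/-- all translations in the `y` directions -/
lemma const_mem (a : Fin n → K) : (fun _ => a) ∈ ASub H := by
  obtain ⟨h0, h1, -, -⟩ := parts_mem H hA hB hC
  have hmul : ∀ a : Fin n → K, (fun _ => a) ∈ ASub H →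
      (fun _ => fun i : Fin n => ((i : ℕ) : K) * a i) ∈ ASub H := by
    intro a ha
    have h2 := (ASub H).sub_mem (ASub_translate H hA hB h1 a ha) h1
    have e : ((fun x => (φ1 : (Fin n → K) → (Fin n → K)) (x + a)) - φ1)
        = (fun _ => fun i : Fin n => ((i : ℕ) : K) * a i) := by
      funext x i
      simp only [φ1, Pi.sub_apply, Pi.add_apply]
      ring
    rwa [e] at h2
  have hpoly : ∀ p : K[X], (fun _ => fun i : Fin n => p.eval ((i : ℕ) : K)) ∈ ASub H := by
    intro p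
    induction p using Polynomial.induction_on with
    | C c =>
      have := (ASub H).smul_mem c h0
      convert this using 1
      funext x i
      simp [φ0]
    | add p q hp hq =>
      have := (ASub H).add_mem hp hq
      convert this using 1
      funext x i
      simp
    | monomial k c ih =>
      have := hmul _ ih
      convert this using 1
      funext x i
      simp only [eval_mul, eval_C, eval_pow, eval_X]
      ring
  have hinj : Set.InjOn (fun i : Fin n => ((i : ℕ) : K)) (Finset.univ : Finset (Fin n)) := by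
    intro i _ j _ hij
    have : ((i : ℕ) : K) = ((j : ℕ) : K) := hij
    exact Fin.ext (Nat.cast_injective this)
  have := hpoly (Lagrange.interpolate Finset.univ (fun i : Fin n => ((i : ℕ) : K)) a)
  convert this using 1
  funext x i
  exact (Lagrange.eval_interpolate_at_node (r := a) hinj (Finset.mem_univ i)).symm

/-- all symmetric rank two maps -/
lemma sym_mem (a b : Fin n → K) : (fun x => (a ⬝ᵥ x) • b + (b ⬝ᵥ x) • a) ∈ ASub H := by
  obtain ⟨-, -, -, h3⟩ := parts_mem H hA hB hC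
  have hc := const_mem H hA hB hC
  have hab := ASub_translate H hA hB h3 (a + b) (hc _)
  have ha := ASub_translate H hA hB h3 a (hc _)
  have hb := ASub_translate H hA hB h3 b (hc _)
  have hid : (id : (Fin n → K) → (Fin n → K)) ∈ ASub H := hA
  have h := (ASub H).sub_mem ((ASub H).add_mem ((ASub H).sub_mem ((ASub H).sub_mem hab ha) hb) h3)
    ((ASub H).add_mem ((ASub H).smul_mem (2 * (a ⬝ᵥ b)) hid)
      (hc (((a + b) ⬝ᵥ (a + b)) • (a + b) - (a ⬝ᵥ a) • a - (b ⬝ᵥ b) • b)))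
  have h' := (ASub H).smul_mem (2⁻¹ : K) h
  convert h' using 1
  funext x i
  simp only [φ3, Pi.add_apply, Pi.sub_apply, Pi.smul_apply, smul_eq_mul, id, dotProduct_add,
    add_dotProduct, dotProduct_comm x a, dotProduct_comm x b, dotProduct_comm b a]
  field_simp
  ring

/-- enough symmetric maps -/
lemma exists_sym (a c : Fin n → K) (ha : a ≠ 0) :
    ∃ Q : (Fin n → K) →ₗ[K] (Fin n → K), (Q : (Fin n → K) → (Fin n → K)) ∈ ASub H ∧
      (∀ x y, x ⬝ᵥ Q y = Q x ⬝ᵥ y) ∧ Q a = c := by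
  obtain ⟨i, hi⟩ : ∃ i, a i ≠ 0 := by
    by_contra hcon
    push Not at hcon
    exact ha (funext hcon)
  set α : Fin n → K := Pi.single i (a i)⁻¹ with hα
  have hαa : α ⬝ᵥ a = 1 := by
    rw [hα, single_dotProduct, inv_mul_cancel₀ hi]
  let Q : (Fin n → K) →ₗ[K] (Fin n → K) :=
    { toFun := fun x => (α ⬝ᵥ x) • c + (c ⬝ᵥ x) • α - ((c ⬝ᵥ a) * (α ⬝ᵥ x)) • α
      map_add' := by
        intro x y
        simp only [dotProduct_add, mul_add, add_smul]
        abel
      map_smul' := by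
        intro r x
        simp only [dotProduct_smul, smul_eq_mul, RingHom.id_apply, smul_add, smul_sub, smul_smul]
        congr 2
        ring }
  have hQ : ∀ x, Q x = (α ⬝ᵥ x) • c + (c ⬝ᵥ x) • α - ((c ⬝ᵥ a) * (α ⬝ᵥ x)) • α := fun _ => rfl
  refine ⟨Q, ?_, ?_, ?_⟩
  · have h1 := sym_mem H hA hB hC α c
    have h2 := (ASub H).smul_mem ((c ⬝ᵥ a) / 2) (sym_mem H hA hB hC α α)
    have h3 := (ASub H).sub_mem h1 h2
    convert h3 using 1
    funext x
    rw [hQ]
    simp only [Pi.sub_apply, Pi.smul_apply]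
    congr 1
    rw [← two_smul K, smul_smul, smul_smul]
    congr 1
    ring
  · intro x y
    simp only [hQ, dotProduct_add, dotProduct_sub, dotProduct_smul, add_dotProduct,
      sub_dotProduct, smul_dotProduct, smul_eq_mul, dotProduct_comm x c, dotProduct_comm x α]
    ring
  · rw [hQ, hαa, one_smul, mul_one, add_sub_cancel_right]

end group

lemma A_linSymp (Q : (Fin n → K) →ₗ[K] (Fin n → K)) (hQ : ∀ x y, x ⬝ᵥ Q y = Q x ⬝ᵥ y) :
    LinSymp ω₀ (A (Q : (Fin n → K) → (Fin n → K))) := by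
  refine ⟨⟨LinearMap.prod (LinearMap.fst K _ _) (LinearMap.snd K _ _ + Q ∘ₗ LinearMap.fst K _ _),
    fun p => rfl⟩, ?_⟩
  intro p q
  simp only [ω₀_apply, A_apply, dotProduct_add, add_dotProduct, hQ]
  ring

lemma B_linSymp (Q : (Fin n → K) →ₗ[K] (Fin n → K)) (hQ : ∀ x y, x ⬝ᵥ Q y = Q x ⬝ᵥ y) :
    LinSymp ω₀ (B (Q : (Fin n → K) → (Fin n → K))) := by
  refine ⟨⟨LinearMap.prod (LinearMap.fst K _ _ + Q ∘ₗ LinearMap.snd K _ _) (LinearMap.snd K _ _),
    fun p => rfl⟩, ?_⟩
  intro p q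
  simp only [ω₀_apply, B_apply, dotProduct_add, add_dotProduct, hQ]
  ring

lemma LinSymp.mul {V : Type*} [AddCommGroup V] [Module K V] {ω : V →ₗ[K] V →ₗ[K] K}
    {g h : Equiv.Perm V} (hg : LinSymp ω g) (hh : LinSymp ω h) : LinSymp ω (g * h) := by
  obtain ⟨⟨L, hL⟩, hs⟩ := hg
  obtain ⟨⟨L', hL'⟩, hs'⟩ := hh
  refine ⟨⟨L ∘ₗ L', fun p => ?_⟩, fun p q => ?_⟩
  · rw [Equiv.Perm.mul_apply, hL', hL]; rfl
  · rw [Equiv.Perm.mul_apply, Equiv.Perm.mul_apply, hs, hs']

/-- Infinite transitivity on `K^n × K^n`. -/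
theorem main_transitive [CharZero K] (hn : 2 ≤ n)
    (H : Subgroup (Equiv.Perm ((Fin n → K) × (Fin n → K))))
    (hA : ∀ t : K, A (t • (id : (Fin n → K) → (Fin n → K))) ∈ H)
    (hB : ∀ t : K, B (t • (id : (Fin n → K) → (Fin n → K))) ∈ H)
    (hC : ∀ t : K, A (t • (Φ : (Fin n → K) → (Fin n → K))) ∈ H)
    (m : ℕ) (x y : Fin m → (Fin n → K) × (Fin n → K))
    (hx : Function.Injective x) (hy : Function.Injective y) :
    ∃ h ∈ H, ∀ i, h (x i) = y i := by
  classical
  let i0 : Fin n := ⟨0, by omega⟩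
  let i1 : Fin n := ⟨1, by omega⟩
  have h01 : i0 ≠ i1 := by simp [i0, i1]
  let e0 : Fin n → K := Pi.single i0 1
  let e1 : Fin n → K := Pi.single i1 1
  have he0 : e0 ≠ 0 := by
    intro h
    have := congrFun h i0
    simp [e0] at this
  have hS : ∀ (c : K) (j : ℕ), S ω₀ ω₀_self ((0, e0) : (Fin n → K) × (Fin n → K)) c j
      = A ((c * (-1) ^ j) • fun x => (x i0) ^ j • e0) := by
    intro c j
    apply Equiv.ext
    intro p
    have e : ω₀ ((0, e0) : (Fin n → K) × (Fin n → K)) p = - p.1 i0 := by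
      simp [e0]
    rw [Sh_apply, e, A_apply, neg_pow]
    refine Prod.ext ?_ ?_
    · simp
    · simp [smul_smul, mul_assoc]
  obtain ⟨-, -, h2, -⟩ := parts_mem H hA hB hC
  refine transitivity_criterion ω₀ ω₀_self ω₀_nd H (0, e0) (e1, 0) (0, e1) ?_ ?_ ?_ ?_ ?_ ?_ ?_
    m x y hx hy
  · simp [e0, e1, h01, h01.symm]
  · simp
  · simp [e1]
  · -- transitivity of the linear part
    have tr1 : ∀ a b : Fin n → K, a ≠ 0 → ∃ g ∈ H, LinSymp ω₀ g ∧ g (0, e0) = (a, b) := by
      intro a b ha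
      obtain ⟨Q1, hQ1, hs1, hv1⟩ := exists_sym H hA hB hC e0 a he0
      obtain ⟨Q2, hQ2, hs2, hv2⟩ := exists_sym H hA hB hC a (b - e0) ha
      refine ⟨A (Q2 : (Fin n → K) → (Fin n → K)) * B (Q1 : (Fin n → K) → (Fin n → K)),
        H.mul_mem (A_mem_of_ASub H hQ2) (B_mem_of_A H hA hB (A_mem_of_ASub H hQ1)),
        (A_linSymp Q2 hs2).mul (B_linSymp Q1 hs1), ?_⟩
      rw [Equiv.Perm.mul_apply, B_apply, A_apply]
      simp only [hv1, zero_add, hv2]
      simp
    rintro ⟨a, b⟩ hu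
    by_cases ha : a = 0
    · have hb : b ≠ 0 := by
        intro hb
        apply hu
        rw [ha, hb]
        rfl
      obtain ⟨g, hg, hgs, hgv⟩ := tr1 e0 b he0
      obtain ⟨Q, hQ, hs, hv⟩ := exists_sym H hA hB hC b (-e0) hb
      refine ⟨B (Q : (Fin n → K) → (Fin n → K)) * g,
        H.mul_mem (B_mem_of_A H hA hB (A_mem_of_ASub H hQ)) hg, (B_linSymp Q hs).mul hgs, ?_⟩
      rw [Equiv.Perm.mul_apply, hgv, B_apply]
      simp only [hv, ha, add_neg_cancel]
    · exact tr1 a b ha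
  · intro c
    rw [hS]
    have := const_mem H hA hB hC e0
    have h' := this (c * (-1) ^ 0)
    simpa using h'
  · intro c
    rw [hS]
    have h := (ASub H).smul_mem (2⁻¹ : K) (sym_mem H hA hB hC e0 e0)
    have e : (2⁻¹ : K) • (fun x : Fin n → K => (e0 ⬝ᵥ x) • e0 + (e0 ⬝ᵥ x) • e0)
        = fun x => (x i0) ^ 1 • e0 := by
      funext x
      have : e0 ⬝ᵥ x = x i0 := by simp [e0]
      simp only [Pi.smul_apply, this, pow_one]
      rw [← two_smul K, smul_smul, inv_mul_cancel₀ two_ne_zero, one_smul]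
    rw [e] at h
    exact h _
  · intro c
    rw [hS]
    have e : (φ2 : (Fin n → K) → (Fin n → K)) = fun x => (x i0) ^ 2 • e0 := by
      funext x i
      simp only [φ2, e0, Pi.smul_apply, smul_eq_mul, Pi.single_apply]
      by_cases hi : i = i0
      · subst hi; simp [i0]
      · have : (i : ℕ) ≠ 0 := fun h => hi (Fin.ext h)
        simp [hi, this]
    rw [e] at h2
    exact h2 _

end Pool.Agent.SympTrans
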