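import Mathlib
import Pool.Agent.SympTrans.Concrete

/-!
# Darboux basis

Every nondegenerate alternating form on a space of dimension `2 n` is isometric to the standard
one on `K^n × K^n`.
-/

namespace Pool.Agent.SympTrans

variable {K V : Type*} [Field K] [AddCommGroup V] [Module K V]

/-- A partial Darboux system with `k` pairs. -/
structure Darboux (ω : V →ₗ[K] V →ₗ[K] K) (k : ℕ) (e f : ℕ → V) : Prop where
  ee : ∀ i < k, ∀ j < k, ω (e i) (e j) = 0
  ff : ∀ i < k, ∀ j < k, ω (f i) (f j) = 0
  ef : ∀ i < k, ∀ j < k, ω (e i) (f j) = if i = j then 1 else 0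

/-- The projection to the orthogonal complement of a partial Darboux system. -/
def proj (ω : V →ₗ[K] V →ₗ[K] K) (k : ℕ) (e f : ℕ → V) (v : V) : V :=
  v - ∑ i ∈ Finset.range k, ω v (f i) • e i + ∑ i ∈ Finset.range k, ω v (e i) • f i

lemma proj_e (ω : V →ₗ[K] V →ₗ[K] K) (hω : ∀ v, ω v v = 0) {k : ℕ} {e f : ℕ → V}
    (h : Darboux ω k e f) (v : V) (j : ℕ) (hj : j < k) : ω (proj ω k e f v) (e j) = 0 := by
  have hfe : ∀ i < k, ω (f i) (e j) = if i = j then -1 else 0 := by
    intro i hi
    rw [skew ω hω, h.ef j hj i hi]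
    by_cases hij : i = j
    · simp [hij]
    · simp [hij, Ne.symm hij]
  simp only [proj, map_add, map_sub, map_sum, map_smul, LinearMap.add_apply, LinearMap.sub_apply,
    LinearMap.coe_sum, Finset.sum_apply, LinearMap.smul_apply, smul_eq_mul]
  rw [Finset.sum_eq_zero (s := Finset.range k) (f := fun i => ω v (f i) * ω (e i) (e j)) (by
    intro i hi
    rw [h.ee i (Finset.mem_range.mp hi) j hj, mul_zero]),
    Finset.sum_eq_single j]
  · rw [hfe j hj]; simp
  · intro i hi hij
    rw [hfe i (Finset.mem_range.mp hi), if_neg hij, mul_zero]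
  · intro h'; exact absurd (Finset.mem_range.mpr hj) h'

lemma proj_f (ω : V →ₗ[K] V →ₗ[K] K) {k : ℕ} {e f : ℕ → V}
    (h : Darboux ω k e f) (v : V) (j : ℕ) (hj : j < k) : ω (proj ω k e f v) (f j) = 0 := by
  simp only [proj, map_add, map_sub, map_sum, map_smul, LinearMap.add_apply, LinearMap.sub_apply,
    LinearMap.coe_sum, Finset.sum_apply, LinearMap.smul_apply, smul_eq_mul]
  rw [Finset.sum_eq_zero (s := Finset.range k) (f := fun i => ω v (e i) * ω (f i) (f j)) (by
    intro i hi
    rw [h.ff i (Finset.mem_range.mp hi) j hj, mul_zero]),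
    Finset.sum_eq_single j]
  · rw [h.ef j hj j hj]; simp
  · intro i hi hij
    rw [h.ef i (Finset.mem_range.mp hi) j hj, if_neg hij, mul_zero]
  · intro h'; exact absurd (Finset.mem_range.mpr hj) h'

lemma exists_darboux [FiniteDimensional K V] (ω : V →ₗ[K] V →ₗ[K] K) (hω : ∀ v, ω v v = 0)
    (hnd : ∀ w : V, w ≠ 0 → ∃ v, ω v w ≠ 0) (n : ℕ) (hn : Module.finrank K V = 2 * n) :
    ∀ k ≤ n, ∃ e f : ℕ → V, Darboux ω k e f := by
  intro k
  induction k with
  | zero =>
    intro _
    exact ⟨0, 0, ⟨by simp, by simp, by simp⟩⟩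
  | succ k ih =>
    intro hk
    obtain ⟨e, f, h⟩ := ih (by omega)
    classical
    -- a vector outside the span
    obtain ⟨v, hv⟩ : ∃ v, proj ω k e f v ≠ 0 := by
      by_contra hcon
      push Not at hcon
      let s : Finset V := (Finset.range k).image e ∪ (Finset.range k).image f
      have hspan : Submodule.span K (s : Set V) = ⊤ := by
        rw [eq_top_iff]
        intro v _
        have hv := hcon v
        have : v = ∑ i ∈ Finset.range k, ω v (f i) • e i - ∑ i ∈ Finset.range k, ω v (e i) • f i := by
          rw [proj, sub_add, sub_eq_zero] at hv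
          exact hv
        rw [this]
        apply Submodule.sub_mem
        · apply Submodule.sum_mem
          intro i hi
          apply Submodule.smul_mem
          apply Submodule.subset_span
          simp only [s, Finset.coe_union, Finset.coe_image, Set.mem_union, Set.mem_image]
          left
          exact ⟨i, hi, rfl⟩
        · apply Submodule.sum_mem
          intro i hi
          apply Submodule.smul_mem
          apply Submodule.subset_span
          simp only [s, Finset.coe_union, Finset.coe_image, Set.mem_union, Set.mem_image]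
          right
          exact ⟨i, hi, rfl⟩
      have hcard : s.card ≤ 2 * k := by
        calc s.card ≤ ((Finset.range k).image e).card + ((Finset.range k).image f).card :=
              Finset.card_union_le _ _
          _ ≤ k + k := by
              gcongr
              · exact Finset.card_image_le.trans (by simp)
              · exact Finset.card_image_le.trans (by simp)
          _ = 2 * k := by ring
      have h1 := finrank_span_finset_le_card (R := K) s
      have h2 : Module.finrank K (Submodule.span K (s : Set V)) = 2 * n := by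
        rw [hspan, finrank_top, hn]
      rw [Set.finrank] at h1
      omega
    set a := proj ω k e f v with ha
    obtain ⟨w, hw⟩ := hnd a hv
    have hw' : ω a w ≠ 0 := by
      rw [skew ω hω]
      exact neg_ne_zero.mpr hw
    set b := proj ω k e f w with hb
    have hae : ∀ j < k, ω a (e j) = 0 := proj_e ω hω h v
    have haf : ∀ j < k, ω a (f j) = 0 := proj_f ω h v
    have hbe : ∀ j < k, ω b (e j) = 0 := proj_e ω hω h w
    have hbf : ∀ j < k, ω b (f j) = 0 := proj_f ω h w
    have hab : ω a b = ω a w := by
      rw [hb, proj]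
      simp only [map_add, map_sub, map_sum, map_smul, smul_eq_mul]
      rw [Finset.sum_eq_zero, Finset.sum_eq_zero]
      · simp
      · intro i hi; rw [haf i (Finset.mem_range.mp hi), mul_zero]
      · intro i hi; rw [hae i (Finset.mem_range.mp hi), mul_zero]
    have hea : ∀ j < k, ω (e j) a = 0 := fun j hj => by rw [skew ω hω, hae j hj, neg_zero]
    have hfa : ∀ j < k, ω (f j) a = 0 := fun j hj => by rw [skew ω hω, haf j hj, neg_zero]
    have heb : ∀ j < k, ω (e j) b = 0 := fun j hj => by rw [skew ω hω, hbe j hj, neg_zero]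
    have hfb : ∀ j < k, ω (f j) b = 0 := fun j hj => by rw [skew ω hω, hbf j hj, neg_zero]
    have ue : ∀ j < k, Function.update e k a j = e j := fun j hj =>
      Function.update_of_ne (by omega) _ _
    have uf : ∀ j < k, Function.update f k ((ω a w)⁻¹ • b) j = f j := fun j hj =>
      Function.update_of_ne (by omega) _ _
    have uek : Function.update e k a k = a := Function.update_self _ _ _
    have ufk : Function.update f k ((ω a w)⁻¹ • b) k = (ω a w)⁻¹ • b := Function.update_self _ _ _
    refine ⟨Function.update e k a, Function.update f k ((ω a w)⁻¹ • b), ⟨?_, ?_, ?_⟩⟩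
    · intro i hi j hj
      rcases Nat.lt_succ_iff_lt_or_eq.mp hi with hi | hi <;>
        rcases Nat.lt_succ_iff_lt_or_eq.mp hj with hj | hj
      · rw [ue i hi, ue j hj, h.ee i hi j hj]
      · rw [ue i hi, hj, uek, hea i hi]
      · rw [hi, uek, ue j hj, hae j hj]
      · rw [hi, hj, uek, hω]
    · intro i hi j hj
      rcases Nat.lt_succ_iff_lt_or_eq.mp hi with hi | hi <;>
        rcases Nat.lt_succ_iff_lt_or_eq.mp hj with hj | hj
      · rw [uf i hi, uf j hj, h.ff i hi j hj]
      · rw [uf i hi, hj, ufk, map_smul, hfb i hi, smul_zero]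
      · rw [hi, ufk, uf j hj, map_smul, LinearMap.smul_apply, hbf j hj, smul_zero]
      · rw [hi, hj, ufk, hω]
    · intro i hi j hj
      rcases Nat.lt_succ_iff_lt_or_eq.mp hi with hi | hi <;>
        rcases Nat.lt_succ_iff_lt_or_eq.mp hj with hj | hj
      · rw [ue i hi, uf j hj, h.ef i hi j hj]
      · rw [ue i hi, hj, ufk, map_smul, heb i hi, smul_zero, if_neg (by omega)]
      · rw [hi, uek, uf j hj, haf j hj, if_neg (by omega)]
      · rw [hi, hj, uek, ufk, map_smul, hab, smul_eq_mul, inv_mul_cancel₀ hw', if_pos rfl]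

/-- Existence of a Darboux isometry with the standard symplectic space. -/
theorem exists_isometry [FiniteDimensional K V] (ω : V →ₗ[K] V →ₗ[K] K) (hω : ∀ v, ω v v = 0)
    (hnd : ∀ w : V, w ≠ 0 → ∃ v, ω v w ≠ 0) (n : ℕ) (hn : Module.finrank K V = 2 * n) :
    ∃ e : V ≃ₗ[K] (Fin n → K) × (Fin n → K), ∀ u v, ω u v = ω₀ (e u) (e v) := by
  obtain ⟨e, f, h⟩ := exists_darboux ω hω hnd n hn n le_rfl
  -- the map `K^n × K^n → V`
  let L : ((Fin n → K) × (Fin n → K)) →ₗ[K] V :=
    { toFun := fun p => ∑ i : Fin n, p.1 i • e i + ∑ i : Fin n, p.2 i • f i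
      map_add' := by
        intro p q
        simp only [Prod.fst_add, Prod.snd_add, Pi.add_apply, add_smul, Finset.sum_add_distrib]
        abel
      map_smul' := by
        intro c p
        simp only [Prod.smul_fst, Prod.smul_snd, Pi.smul_apply, smul_eq_mul, mul_smul,
          RingHom.id_apply, smul_add, Finset.smul_sum] }
  have hfe : ∀ i j : Fin n, ω (f i) (e j) = if i = j then -1 else 0 := by
    intro i j
    rw [skew ω hω, h.ef j j.2 i i.2]
    by_cases hij : i = j
    · simp [hij]
    · simp [hij, Fin.val_inj, Ne.symm hij]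
  have hef : ∀ i j : Fin n, ω (e i) (f j) = if i = j then 1 else 0 := by
    intro i j
    rw [h.ef i i.2 j j.2]
    simp [Fin.val_inj]
  have hiso : ∀ p q, ω (L p) (L q) = ω₀ p q := by
    intro p q
    have hL : ∀ p, L p = ∑ i : Fin n, p.1 i • e i + ∑ i : Fin n, p.2 i • f i := fun _ => rfl
    rw [hL, hL]
    simp only [map_add, map_sum, map_smul, LinearMap.add_apply, LinearMap.coe_sum,
      Finset.sum_apply, LinearMap.smul_apply, smul_eq_mul, hef, hfe, h.ee _ (Fin.is_lt _) _ (Fin.is_lt _),
      h.ff _ (Fin.is_lt _) _ (Fin.is_lt _), ω₀_apply, dotProduct]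
    simp only [mul_zero, Finset.sum_const_zero, add_zero, zero_add, mul_ite, mul_one,
      Finset.sum_ite_eq', Finset.mem_univ, if_true, mul_neg]
    rw [sub_eq_add_neg, ← Finset.sum_neg_distrib, add_comm]
    congr 1
    · apply Finset.sum_congr rfl; intro i _; ring
    · apply Finset.sum_congr rfl; intro i _; ring
  have hinj : Function.Injective L := by
    rw [← LinearMap.ker_eq_bot, LinearMap.ker_eq_bot']
    intro p hp
    by_contra hne
    obtain ⟨v, hv⟩ := ω₀_nd p hne
    apply hv
    rw [← hiso, hp, map_zero]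
  have hdim : Module.finrank K ((Fin n → K) × (Fin n → K)) = Module.finrank K V := by
    rw [hn, Module.finrank_prod, Module.finrank_fintype_fun_eq_card, Fintype.card_fin]
    ring
  let E : ((Fin n → K) × (Fin n → K)) ≃ₗ[K] V := LinearEquiv.ofInjectiveOfFinrankEq L hinj hdim
  refine ⟨E.symm, fun u v => ?_⟩
  rw [← hiso]
  have hE : ∀ u, L (E.symm u) = u := fun u => E.apply_symm_apply u
  rw [hE, hE]

end Pool.Agent.SympTrans
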