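import Mathlib

/-!
# Polynomial functions, first order Taylor expansions and the Jacobian
-/

namespace Pool.Agent.SympTrans

open MvPolynomial

variable {K : Type*} [Field K]

/-- `F` is a polynomial function. -/
def PolyFun {κ : Type*} (F : (κ → K) → K) : Prop := ∃ P : MvPolynomial κ K, ∀ z, F z = eval z P

lemma PolyFun.const {κ : Type*} (c : K) : PolyFun (fun _ : κ → K => c) := ⟨C c, by simp⟩
lemma PolyFun.coord {κ : Type*} (k : κ) : PolyFun (fun z : κ → K => z k) := ⟨X k, by simp⟩
lemma PolyFun.add {κ : Type*} {F G : (κ → K) → K} (hF : PolyFun F) (hG : PolyFun G) :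
    PolyFun (fun z => F z + G z) := by
  obtain ⟨P, hP⟩ := hF
  obtain ⟨Q, hQ⟩ := hG
  exact ⟨P + Q, fun z => by simp only [hP, hQ, map_add]⟩
lemma PolyFun.mul {κ : Type*} {F G : (κ → K) → K} (hF : PolyFun F) (hG : PolyFun G) :
    PolyFun (fun z => F z * G z) := by
  obtain ⟨P, hP⟩ := hF
  obtain ⟨Q, hQ⟩ := hG
  exact ⟨P * Q, fun z => by simp only [hP, hQ, map_mul]⟩
lemma PolyFun.sum {κ ι : Type*} (s : Finset ι) {F : ι → (κ → K) → K}
    (hF : ∀ i ∈ s, PolyFun (F i)) : PolyFun (fun z => ∑ i ∈ s, F i z) := by
  classical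
  induction s using Finset.induction_on with
  | empty => simpa using PolyFun.const (κ := κ) (0 : K)
  | insert a s ha ih =>
    have h1 := hF a (Finset.mem_insert_self _ _)
    have h2 := ih fun i hi => hF i (Finset.mem_insert_of_mem hi)
    have := h1.add h2
    convert this using 1
    funext z
    rw [Finset.sum_insert ha]

/-- first order Taylor expansion along a line with polynomial remainder -/
def Taylor (F : K → K) (D : K) : Prop :=
  ∃ r : Polynomial K, ∀ s : K, F s = F 0 + s * D + s ^ 2 * r.eval s

lemma Taylor.const (c : K) : Taylor (fun _ => c) 0 := ⟨0, by simp⟩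
lemma Taylor.id' (a b : K) : Taylor (fun s => a + s * b) b := ⟨0, by simp⟩
lemma Taylor.add {F G : K → K} {D E : K} (hF : Taylor F D) (hG : Taylor G E) :
    Taylor (fun s => F s + G s) (D + E) := by
  obtain ⟨r, hr⟩ := hF
  obtain ⟨q, hq⟩ := hG
  refine ⟨r + q, fun s => ?_⟩
  show F s + G s = F 0 + G 0 + s * (D + E) + s ^ 2 * (r + q).eval s
  rw [hr, hq, Polynomial.eval_add]
  ring
lemma Taylor.mul {F G : K → K} {D E : K} (hF : Taylor F D) (hG : Taylor G E) :
    Taylor (fun s => F s * G s) (D * G 0 + F 0 * E) := by
  obtain ⟨r, hr⟩ := hF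
  obtain ⟨q, hq⟩ := hG
  refine ⟨Polynomial.C (D * E) + r * Polynomial.C (G 0) + q * Polynomial.C (F 0)
    + Polynomial.X * (r * Polynomial.C E + q * Polynomial.C D) + Polynomial.X ^ 2 * r * q,
    fun s => ?_⟩
  show F s * G s = F 0 * G 0 + s * (D * G 0 + F 0 * E) + s ^ 2 * _
  rw [hr, hq]
  simp only [Polynomial.eval_add, Polynomial.eval_mul, Polynomial.eval_C, Polynomial.eval_X,
    Polynomial.eval_pow]
  ring
lemma Taylor.sum {ι : Type*} (s : Finset ι) {F : ι → K → K} {D : ι → K}
    (hF : ∀ i ∈ s, Taylor (F i) (D i)) : Taylor (fun z => ∑ i ∈ s, F i z) (∑ i ∈ s, D i) := by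
  classical
  induction s using Finset.induction_on with
  | empty => simpa using Taylor.const (0 : K)
  | insert a s ha ih =>
    have h1 := hF a (Finset.mem_insert_self _ _)
    have h2 := ih fun i hi => hF i (Finset.mem_insert_of_mem hi)
    have := h1.add h2
    rw [Finset.sum_insert ha]
    convert this using 1
    funext z
    rw [Finset.sum_insert ha]

/-- the Jacobian computes first order Taylor coefficients -/
lemma jacobian_mulVec {ι : Type*} [Fintype ι] [Infinite K]
    (g : MvPolynomial ι K) (p u : ι → K) (D : K)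
    (h : Taylor (fun s : K => eval (fun j => p j + s * u j) g) D) :
    ∑ j, eval p (pderiv j g) * u j = D := by
  classical
  let θ : MvPolynomial ι K →ₐ[K] Polynomial K :=
    aeval fun j => Polynomial.C (p j) + Polynomial.X * Polynomial.C (u j)
  have hθX : ∀ k, θ (X k) = Polynomial.C (p k) + Polynomial.X * Polynomial.C (u k) := by
    intro k; simp only [θ, aeval_X]
  have hθC : ∀ c, θ (C c) = Polynomial.C c := by
    intro c; simp [θ]
  have hθ : ∀ (g : MvPolynomial ι K) (s : K),
      (θ g).eval s = eval (fun j => p j + s * u j) g := by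
    intro g s
    induction g using MvPolynomial.induction_on with
    | C a => rw [hθC]; simp
    | add a b ha hb => simp [ha, hb]
    | mul_X a j ha =>
      rw [map_mul, Polynomial.eval_mul, ha, hθX, Polynomial.eval_add, Polynomial.eval_mul,
        Polynomial.eval_C, Polynomial.eval_C, Polynomial.eval_X, map_mul, eval_X]
  have h0 : ∀ g : MvPolynomial ι K, (θ g).coeff 0 = eval p g := by
    intro g
    rw [Polynomial.coeff_zero_eq_eval_zero, hθ]
    congr 2
    funext j
    ring
  have h1 : ∀ g : MvPolynomial ι K, (θ g).coeff 1 = ∑ j, eval p (pderiv j g) * u j := by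
    intro g
    induction g using MvPolynomial.induction_on with
    | C a =>
      rw [hθC, Polynomial.coeff_C]
      simp
    | add a b ha hb =>
      rw [map_add, Polynomial.coeff_add, ha, hb, ← Finset.sum_add_distrib]
      apply Finset.sum_congr rfl
      intro j _
      rw [map_add, map_add, add_mul]
    | mul_X a k ha =>
      have e1 : θ (a * X k) = θ a * Polynomial.C (p k) + θ a * Polynomial.C (u k) * Polynomial.X := by
        rw [map_mul, hθX]
        ring
      have e2 : (θ (a * X k)).coeff 1 = (∑ j, eval p (pderiv j a) * u j) * p k + eval p a * u k := by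
        rw [e1, Polynomial.coeff_add, Polynomial.coeff_mul_C, ha,
          show (1 : ℕ) = 0 + 1 from rfl, Polynomial.coeff_mul_X, Polynomial.coeff_mul_C, h0]
      rw [e2]
      have e3 : ∀ j, eval p (pderiv j (a * X k)) * u j
          = eval p (pderiv j a) * u j * p k + eval p a * (if j = k then u k else 0) := by
        intro j
        rw [Derivation.leibniz, pderiv_X, smul_eq_mul, smul_eq_mul, map_add, map_mul, map_mul]
        by_cases hjk : j = k
        · subst hjk
          simp
          ring
        · simp [hjk, Ne.symm hjk]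
          ring
      rw [Finset.sum_congr rfl fun j _ => e3 j, Finset.sum_add_distrib, ← Finset.sum_mul,
        ← Finset.mul_sum]
      simp
  obtain ⟨r, hr⟩ := h
  have hP : θ g = Polynomial.C (eval (fun j => p j + 0 * u j) g)
      + Polynomial.X * Polynomial.C D + Polynomial.X ^ 2 * r := by
    apply Polynomial.funext
    intro s
    have := hr s
    simp only at this
    rw [hθ, this]
    simp only [Polynomial.eval_add, Polynomial.eval_mul, Polynomial.eval_C, Polynomial.eval_X,
      Polynomial.eval_pow]
  have hc : (θ g).coeff 1 = D := by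
    rw [hP]
    simp [Polynomial.coeff_X_pow_mul', Polynomial.coeff_C]
  rw [← hc, h1]

end Pool.Agent.SympTrans
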