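import Mathlib
import Pool.Agent.SympTrans.Basis
import Pool.Agent.SympTrans.Poly

/-!
# The flows `v ↦ v + t ξ(v)` and their transport by a linear isometry
-/

namespace Pool.Agent.SympTrans

open MvPolynomial

variable {K : Type*} [Field K]

section flow

variable {V : Type*} [AddCommGroup V] [Module K V]

/-- The one parameter group `v ↦ v + t ξ(v)`, where `ξ` is constant along its own lines. -/
def flow (ξ : V → V) (hξ : ∀ (t : K) (v : V), ξ (v + t • ξ v) = ξ v) :
    Multiplicative K →* Equiv.Perm V where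
  toFun t :=
    { toFun := fun v => v + (Multiplicative.toAdd t) • ξ v
      invFun := fun v => v - (Multiplicative.toAdd t) • ξ v
      left_inv := by
        intro v
        simp only [hξ, add_sub_cancel_right]
      right_inv := by
        intro v
        have := hξ (-(Multiplicative.toAdd t)) v
        rw [neg_smul, ← sub_eq_add_neg] at this
        simp only [this, sub_add_cancel] }
  map_one' := by
    ext v
    simp
  map_mul' := by
    intro s t
    ext v
    simp only [Equiv.Perm.mul_apply, Equiv.coe_fn_mk, toAdd_mul, hξ, add_smul]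
    abel

lemma flow_apply (ξ : V → V) (hξ : ∀ (t : K) (v : V), ξ (v + t • ξ v) = ξ v) (t : K) (v : V) :
    flow ξ hξ (Multiplicative.ofAdd t) v = v + t • ξ v := rfl

lemma flow_symm_apply (ξ : V → V) (hξ : ∀ (t : K) (v : V), ξ (v + t • ξ v) = ξ v) (t : K)
    (v : V) : (flow ξ hξ (Multiplicative.ofAdd t)).symm v = v - t • ξ v := rfl

end flow

variable {n : ℕ} {ι : Type*}

/-- the vector field `(0, φ x)` -/
def ψA (φ : (Fin n → K) → (Fin n → K)) (p : (Fin n → K) × (Fin n → K)) :
    (Fin n → K) × (Fin n → K) := (0, φ p.1)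

/-- the vector field `(y, 0)` -/
def ψB (p : (Fin n → K) × (Fin n → K)) : (Fin n → K) × (Fin n → K) := (p.2, 0)

/-- transport of a vector field along a linear equivalence -/
def tr (e : (ι → K) ≃ₗ[K] (Fin n → K) × (Fin n → K))
    (ψ : (Fin n → K) × (Fin n → K) → (Fin n → K) × (Fin n → K)) (v : ι → K) : ι → K :=
  e.symm (ψ (e v))

lemma tr_inv (e : (ι → K) ≃ₗ[K] (Fin n → K) × (Fin n → K))
    (ψ : (Fin n → K) × (Fin n → K) → (Fin n → K) × (Fin n → K))
    (hψ : ∀ (t : K) (p), ψ (p + t • ψ p) = ψ p) (t : K) (v : ι → K) :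
    tr e ψ (v + t • tr e ψ v) = tr e ψ v := by
  simp only [tr, map_add, map_smul, LinearEquiv.apply_symm_apply, hψ]

lemma ψA_inv (φ : (Fin n → K) → (Fin n → K)) (t : K) (p : (Fin n → K) × (Fin n → K)) :
    ψA φ (p + t • ψA φ p) = ψA φ p := by
  simp [ψA]

lemma ψB_inv (t : K) (p : (Fin n → K) × (Fin n → K)) :
    ψB (p + t • ψB p) = ψB p := by
  simp [ψB]

lemma symm_expand (e : (ι → K) ≃ₗ[K] (Fin n → K) × (Fin n → K)) (w : (Fin n → K) × (Fin n → K))
    (i : ι) : e.symm w i = (∑ k, e.symm (Pi.single k 1, 0) i * w.1 k)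
      + ∑ k, e.symm (0, Pi.single k 1) i * w.2 k := by
  have h1 : w = (∑ k, w.1 k • ((Pi.single k 1, 0) : (Fin n → K) × (Fin n → K)))
      + ∑ k, w.2 k • ((0, Pi.single k 1) : (Fin n → K) × (Fin n → K)) := by
    refine Prod.ext ?_ ?_
    · rw [Prod.fst_add, Prod.fst_sum, Prod.fst_sum]
      simp only [Prod.smul_fst, smul_zero, Finset.sum_const_zero, add_zero]
      exact pi_eq_sum_univ' w.1
    · rw [Prod.snd_add, Prod.snd_sum, Prod.snd_sum]
      simp only [Prod.smul_snd, smul_zero, Finset.sum_const_zero, zero_add]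
      exact pi_eq_sum_univ' w.2
  conv_lhs => rw [h1]
  simp only [map_add, map_sum, map_smul, Pi.add_apply, Finset.sum_apply, Pi.smul_apply,
    smul_eq_mul]
  congr 1 <;> exact Finset.sum_congr rfl fun _ _ => mul_comm _ _

variable [Fintype ι] [DecidableEq ι]

lemma polyFun_linear (L : (ι → K) →ₗ[K] K) : PolyFun (fun v : ι → K => L v) := by
  have h : ∀ v, L v = ∑ j, v j * L (Pi.single j 1) := by
    intro v
    rw [LinearMap.pi_apply_eq_sum_univ L v]
    apply Finset.sum_congr rfl
    intro j _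
    rw [smul_eq_mul]
    congr 2
    funext k
    simp [Pi.single_apply, eq_comm]
  have : (fun v : ι → K => L v) = fun v => ∑ j, v j * L (Pi.single j 1) := funext h
  rw [this]
  exact PolyFun.sum _ fun j _ => (PolyFun.coord j).mul (PolyFun.const _)

lemma polyFun_fst (e : (ι → K) ≃ₗ[K] (Fin n → K) × (Fin n → K)) (k : Fin n) :
    PolyFun (fun v : ι → K => (e v).1 k) :=
  polyFun_linear ((LinearMap.proj k) ∘ₗ (LinearMap.fst K _ _) ∘ₗ e.toLinearMap)

lemma polyFun_snd (e : (ι → K) ≃ₗ[K] (Fin n → K) × (Fin n → K)) (k : Fin n) :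
    PolyFun (fun v : ι → K => (e v).2 k) :=
  polyFun_linear ((LinearMap.proj k) ∘ₗ (LinearMap.snd K _ _) ∘ₗ e.toLinearMap)

/-- transport preserves polynomiality -/
lemma tr_poly (e : (ι → K) ≃ₗ[K] (Fin n → K) × (Fin n → K))
    (ψ : (Fin n → K) × (Fin n → K) → (Fin n → K) × (Fin n → K))
    (h1 : ∀ k, PolyFun (fun v : ι → K => (ψ (e v)).1 k))
    (h2 : ∀ k, PolyFun (fun v : ι → K => (ψ (e v)).2 k)) (i : ι) :
    PolyFun (fun v => tr e ψ v i) := by
  have : (fun v => tr e ψ v i) = fun v => (∑ k, e.symm (Pi.single k 1, 0) i * (ψ (e v)).1 k)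
      + ∑ k, e.symm (0, Pi.single k 1) i * (ψ (e v)).2 k := by
    funext v
    exact symm_expand e (ψ (e v)) i
  rw [this]
  exact (PolyFun.sum _ fun k _ => (PolyFun.const _).mul (h1 k)).add
    (PolyFun.sum _ fun k _ => (PolyFun.const _).mul (h2 k))

/-- transport of Taylor expansions -/
lemma tr_taylor (e : (ι → K) ≃ₗ[K] (Fin n → K) × (Fin n → K))
    (ψ : (Fin n → K) × (Fin n → K) → (Fin n → K) × (Fin n → K))
    (dψ : (Fin n → K) × (Fin n → K) → (Fin n → K) × (Fin n → K) → (Fin n → K) × (Fin n → K))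
    (h1 : ∀ q w k, Taylor (fun s : K => (ψ (q + s • w)).1 k) ((dψ q w).1 k))
    (h2 : ∀ q w k, Taylor (fun s : K => (ψ (q + s • w)).2 k) ((dψ q w).2 k))
    (p u : ι → K) (i : ι) :
    Taylor (fun s : K => tr e ψ (p + s • u) i) (e.symm (dψ (e p) (e u)) i) := by
  have e1 : (fun s : K => tr e ψ (p + s • u) i) = fun s =>
      (∑ k, e.symm (Pi.single k 1, 0) i * (ψ (e p + s • e u)).1 k)
      + ∑ k, e.symm (0, Pi.single k 1) i * (ψ (e p + s • e u)).2 k := by
    funext s
    rw [← symm_expand e (ψ (e p + s • e u)) i, tr, map_add, map_smul]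
  have key : ∀ (c : K) {F : K → K} {D : K}, Taylor F D → Taylor (fun s => c * F s) (c * D) := by
    intro c F D hF
    have := (Taylor.const c).mul hF
    simpa using this
  rw [e1, symm_expand e (dψ (e p) (e u)) i]
  exact (Taylor.sum _ fun k _ => key _ (h1 _ _ k)).add (Taylor.sum _ fun k _ => key _ (h2 _ _ k))

/-- derivative of `Φ` -/
def dΦ (x u : Fin n → K) : Fin n → K := fun i =>
  ((i : ℕ) : K) * u i + (if (i : ℕ) = 0 then 2 * (x i * u i) else 0)
    + ((∑ j, 2 * (x j * u j)) * x i + (x ⬝ᵥ x) * u i)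

lemma Φ_taylor (x u : Fin n → K) (i : Fin n) :
    Taylor (fun s : K => Φ (x + s • u) i) (dΦ x u i) := by
  have hx : ∀ j, Taylor (fun s : K => (x + s • u) j) (u j) := by
    intro j
    have := Taylor.id' (x j) (u j)
    exact this
  have hmul : ∀ j, Taylor (fun s : K => (x + s • u) j * (x + s • u) j) (2 * (x j * u j)) := by
    intro j
    have := (hx j).mul (hx j)
    convert this using 1
    simp
    ring
  have hdot : Taylor (fun s : K => (x + s • u) ⬝ᵥ (x + s • u)) (∑ j, 2 * (x j * u j)) :=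
    Taylor.sum _ fun j _ => hmul j
  have x0 : x + (0 : K) • u = x := by rw [zero_smul, add_zero]
  have h3 : Taylor (fun s : K => φ3 (x + s • u) i)
      ((∑ j, 2 * (x j * u j)) * x i + (x ⬝ᵥ x) * u i) := by
    have := hdot.mul (hx i)
    simp only [x0] at this
    exact this
  have h2 : Taylor (fun s : K => φ2 (x + s • u) i)
      (if (i : ℕ) = 0 then 2 * (x i * u i) else 0) := by
    by_cases hi : (i : ℕ) = 0
    · have := hmul i
      simp only [φ2, hi, if_true, pow_two]
      exact this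
    · simp only [φ2, hi, if_false]
      exact Taylor.const 0
  have h1 : Taylor (fun s : K => φ1 (x + s • u) i) (((i : ℕ) : K) * u i) := by
    have := (Taylor.const ((i : ℕ) : K)).mul (hx i)
    rw [zero_mul, zero_add] at this
    exact this
  have h0 : Taylor (fun s : K => φ0 (x + s • u) i) 0 := Taylor.const 1
  have := ((h0.add h1).add h2).add h3
  rw [zero_add] at this
  exact this

lemma dΦ_symm (x u v : Fin n → K) : u ⬝ᵥ dΦ x v = dΦ x u ⬝ᵥ v := by
  have e1 : ∀ w : Fin n → K, (∑ j, 2 * (x j * w j)) = 2 * (x ⬝ᵥ w) := by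
    intro w
    rw [dotProduct, Finset.mul_sum]
  have e2 : ∀ w : Fin n → K, dΦ x w = (fun i : Fin n => ((i : ℕ) : K) * w i
      + (if (i : ℕ) = 0 then 2 * (x i * w i) else 0)) + ((2 * (x ⬝ᵥ w)) • x + (x ⬝ᵥ x) • w) := by
    intro w
    funext i
    simp only [dΦ, e1, Pi.add_apply, Pi.smul_apply, smul_eq_mul]
  rw [e2, e2, dotProduct_add, add_dotProduct, dotProduct_add, add_dotProduct]
  simp only [dotProduct_smul, smul_dotProduct, smul_eq_mul]
  congr 1
  · simp only [dotProduct]
    apply Finset.sum_congr rfl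
    intro i _
    split_ifs <;> ring
  · rw [dotProduct_comm u x]
    ring

lemma Φ_poly (e : (ι → K) ≃ₗ[K] (Fin n → K) × (Fin n → K)) (k : Fin n) :
    PolyFun (fun v : ι → K => Φ (e v).1 k) := by
  have hx := polyFun_fst e
  have hdot : PolyFun (fun v : ι → K => (e v).1 ⬝ᵥ (e v).1) :=
    PolyFun.sum _ fun j _ => (hx j).mul (hx j)
  have h2 : PolyFun (fun v : ι → K => φ2 (e v).1 k) := by
    by_cases hi : (k : ℕ) = 0
    · simp only [φ2, hi, if_true, pow_two]
      exact (hx k).mul (hx k)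
    · simp only [φ2, hi, if_false]
      exact PolyFun.const 0
  exact (((PolyFun.const 1).add ((PolyFun.const _).mul (hx k))).add h2).add (hdot.mul (hx k))

end Pool.Agent.SympTrans
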